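import Mathlib
import Pool.Agent.H67.STDefs
import Pool.Agent.H67.ST1
import Pool.Agent.H67.ST2

open Pool.Agent.H67.ST LaurentSeries

theorem Pool.Agent.Results.MP_3e0647_al.NoTopology.result :
    ∃ (M : Type) (_ : TopologicalSpace M) (_ : CompactSpace M) (_ : T2Space M)
      (G : Type) (_ : Group G) (_ : MulAction G M),
      (∀ g : G, IsHomeomorph (fun x : M => g • x)) ∧
      (∀ s t : Trip M, ∃! g : G, act g s = t) ∧
      ¬ ∃ _ : TopologicalSpace G, ∀ t : Trip M, IsHomeomorph (fun g : G => act g t) := by
  classical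
  let F := GaloisField 2 2
  letI : Fintype F := Fintype.ofFinite F
  have hcard : Fintype.card F = 4 := by
    rw [← Nat.card_eq_fintype_card]
    exact GaloisField.card 2 2 (by norm_num)
  let φ : F →+* F := frobenius F 2
  have hφ : ∀ x, φ (φ x) = x := by
    intro x
    have := FiniteField.pow_card x
    rw [hcard] at this
    simp only [φ, frobenius_def, ← pow_mul]
    exact this
  obtain ⟨ω, hω⟩ : ∃ ω : F, φ ω ≠ ω := by
    by_contra h
    push Not at h
    have : (Finset.univ : Finset F) ⊆ {0, 1} := by
      intro x _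
      have hx := h x
      simp only [φ, frobenius_def] at hx
      have : x * (x - 1) = 0 := by linear_combination hx
      rcases mul_eq_zero.1 this with h | h
      · simp [h]
      · simp [sub_eq_zero.1 h]
    have h1 := Finset.card_le_card this
    have h2 : ({0, 1} : Finset F).card ≤ 2 := Finset.card_le_two
    rw [Finset.card_univ, hcard] at h1
    omega
  obtain ⟨κ, h1, h2, h3⟩ := exists_kappa φ hφ ω hω
  haveI := wlc (F := F)
  have hσ : ∀ x, sig φ (sig φ x) = x := by
    intro x
    ext n
    simp [hφ]
  obtain ⟨a, b, c⟩ := abstract_result (K := F⸨X⸩) inv_cocompact (sig φ) hσ (sig_cont φ) κ h1 h2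
    (fun n => Units.mk0 _ (uu_ne ω n)) (uu_tendsto ω) h3 (HahnSeries.single 0 ω) (by
      rw [sig_single]
      intro h
      have := congrArg (fun x : F⸨X⸩ => x.coeff 0) h
      exact hω (by simpa using this))
  refine ⟨OnePoint F⸨X⸩, inferInstance, inferInstance, inferInstance,
    twG (sig φ) hσ κ h1 h2, inferInstance, inferInstance, fun g => ?_, b, c⟩
  exact (Homeomorph.mk (MulAction.toPerm g) (a g) (a g⁻¹)).isHomeomorph
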